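import Pool.Agent.Helper21.CU.St

/-!
Module SR of project CU: the sum of the square roots of the numbers of roots.
-/

set_option autoImplicit false

open Finset

namespace Pool.Agent.Helper48.CU

open Pool.Agent.Helper21.CU

/-- the bound for one prime -/
theorem one_prime (hCL : StCL) {k : ℤ} (hk : k ≠ 0) {c : ℝ} (hc : c = 1 / √3) (p : ℕ) (hp : p.Prime) :
    √((R k p).card : ℝ) / p ≤ (1 - c) * (if p % 3 = 2 then (1 : ℝ) / p else 0) +
      c * (((R k p).card : ℝ) / p) +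
      (if p ∈ (3 * k).natAbs.primeFactors then √((R k p).card : ℝ) / p else 0) := by
  have h3 : (0 : ℝ) < √3 := Real.sqrt_pos.2 (by norm_num)
  have h33 : √(3 : ℝ) * √3 = 3 := Real.mul_self_sqrt (by norm_num)
  have hc0 : 0 < c := by rw [hc]; positivity
  have hc1 : c ≤ 1 := by
    rw [hc, div_le_one h3]
    rw [Real.one_le_sqrt]
    norm_num
  have hp0 : (0 : ℝ) < p := by exact_mod_cast hp.pos
  have hk3 : (3 * k).natAbs ≠ 0 := by
    rw [Int.natAbs_ne_zero]
    omega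
  by_cases hbad : p ∈ (3 * k).natAbs.primeFactors
  · rw [if_pos hbad]
    have h1 : 0 ≤ (1 - c) * (if p % 3 = 2 then (1 : ℝ) / p else 0) := by
      apply mul_nonneg (by linarith)
      split_ifs
      · positivity
      · exact le_refl 0
    have h2 : 0 ≤ c * (((R k p).card : ℝ) / p) := by positivity
    linarith
  · rw [if_neg hbad, add_zero]
    have hnd : ¬ (p : ℤ) ∣ 3 * k := by
      intro h
      apply hbad
      rw [Nat.mem_primeFactors]
      exact ⟨hp, Int.natCast_dvd.1 h, hk3⟩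
    obtain ⟨hA, hB⟩ := hCL k p hp hnd
    have hcases : p % 3 = 0 ∨ p % 3 = 1 ∨ p % 3 = 2 := by omega
    rcases hcases with h | h | h
    · exfalso
      have h3p : 3 ∣ p := Nat.dvd_of_mod_eq_zero h
      have : 3 = p := (Nat.prime_dvd_prime_iff_eq Nat.prime_three hp).1 h3p
      apply hnd
      rw [← this]
      exact ⟨k, rfl⟩
    · have h2 : ¬ p % 3 = 2 := by omega
      rw [if_neg h2, mul_zero, zero_add]
      rcases hB h with h0 | h0
      · rw [h0]
        simp
      · rw [h0, hc]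
        apply le_of_eq
        push_cast
        field_simp
        nlinarith [h33]
    · rw [if_pos h, hA h]
      apply le_of_eq
      simp only [Nat.cast_one, Real.sqrt_one]
      ring

theorem hSR (hRP : StRP) (hM3 : StM3) (hCL : StCL) : StSR := by
  intro k hk
  have hk0 : k ≠ 0 := by
    intro h
    apply hk 0
    rw [h]
    norm_num
  obtain ⟨C1, hC1, h1⟩ := hRP k hk
  obtain ⟨C2, hC2, h2⟩ := hM3
  obtain ⟨c, hc⟩ : ∃ c : ℝ, c = 1 / √3 := ⟨_, rfl⟩
  have h3 : (0 : ℝ) < √3 := Real.sqrt_pos.2 (by norm_num)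
  have h33 : √(3 : ℝ) * √3 = 3 := Real.mul_self_sqrt (by norm_num)
  have hc0 : 0 < c := by rw [hc]; positivity
  have hc1 : c ≤ 3 / 5 := by
    rw [hc, div_le_iff₀ h3]
    nlinarith [h33]
  obtain ⟨B, hB⟩ : ∃ B : Finset ℕ, B = (3 * k).natAbs.primeFactors := ⟨_, rfl⟩
  have hnn : ∀ p : ℕ, 0 ≤ √((R k p).card : ℝ) / p := fun p =>
    div_nonneg (Real.sqrt_nonneg _) (Nat.cast_nonneg p)
  obtain ⟨K, hK⟩ : ∃ K : ℝ, K = ∑ p ∈ B, √((R k p).card : ℝ) / p := ⟨_, rfl⟩
  have hK0 : 0 ≤ K := by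
    rw [hK]
    exact Finset.sum_nonneg fun p _ => hnn p
  refine ⟨C1 + C2 + K, by linarith, fun x hx => ?_⟩
  obtain ⟨s, hs⟩ : ∃ s : Finset ℕ, s = (Icc 1 ⌊x⌋₊).filter Nat.Prime := ⟨_, rfl⟩
  have hLL : 0 ≤ Real.log (Real.log x) := by
    apply Real.log_nonneg
    rw [Real.le_log_iff_exp_le (by linarith)]
    have := Real.exp_one_lt_d9
    linarith
  have hsum : ∑ p ∈ s, √((R k p).card : ℝ) / p ≤
      (1 - c) * ∑ p ∈ s, (if p % 3 = 2 then (1 : ℝ) / p else 0) +
      c * ∑ p ∈ s, (((R k p).card : ℝ) / p) +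
      ∑ p ∈ s, (if p ∈ B then √((R k p).card : ℝ) / p else 0) := by
    rw [Finset.mul_sum, Finset.mul_sum, ← Finset.sum_add_distrib, ← Finset.sum_add_distrib]
    refine Finset.sum_le_sum fun p hp => ?_
    rw [hs] at hp
    rw [hB]
    exact one_prime hCL hk0 hc p (Finset.mem_filter.1 hp).2
  have e1 : ∑ p ∈ s, (if p % 3 = 2 then (1 : ℝ) / p else 0) =
      ∑ p ∈ (Icc 1 ⌊x⌋₊).filter (fun p : ℕ => p.Prime ∧ p % 3 = 2), (1 : ℝ) / p := by
    rw [← Finset.sum_filter, hs, Finset.filter_filter]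
  have e2 : ∑ p ∈ s, (if p ∈ B then √((R k p).card : ℝ) / p else 0) ≤ K := by
    rw [← Finset.sum_filter, hK]
    refine Finset.sum_le_sum_of_subset_of_nonneg ?_ fun p _ _ => hnn p
    intro p hp
    exact (Finset.mem_filter.1 hp).2
  rw [← hs]
  have a1 := h1 x hx
  rw [← hs] at a1
  have a2 := (abs_le.1 (h2 x hx)).2
  rw [← e1] at a2
  have b1 : c * ∑ p ∈ s, (((R k p).card : ℝ) / p) ≤ c * (Real.log (Real.log x) + C1) :=
    mul_le_mul_of_nonneg_left a1 hc0.le
  have b2 : (1 - c) * ∑ p ∈ s, (if p % 3 = 2 then (1 : ℝ) / p else 0) ≤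
      (1 - c) * (1 / 2 * Real.log (Real.log x) + C2) :=
    mul_le_mul_of_nonneg_left (by linarith) (by linarith)
  have b3 : c * C1 ≤ C1 := by nlinarith
  have b4 : (1 - c) * C2 ≤ C2 := by nlinarith
  have b5 : (1 - c) * (1 / 2 * Real.log (Real.log x)) + c * Real.log (Real.log x) ≤
      4 / 5 * Real.log (Real.log x) := by nlinarith
  linarith

end Pool.Agent.Helper48.CU
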